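import Pool.Agent.H83.X.T2

/-!
Theorem X, row CSP: the inequality of Cauchy and Schwarz along the primes.
-/

set_option autoImplicit false

open MeasureTheory ProbabilityTheory Filter Topology Finset
open scoped Nat ENNReal

namespace Pool.Agent.H52.X

open Pool.Agent.H24.T2 (Pset)
open Pool.Agent.H67.AG (avgP)
open Pool.Agent.H83.X

section core

variable {Ω : Type} [MeasurableSpace Ω] (P : Measure Ω) [IsProbabilityMeasure P]

omit [IsProbabilityMeasure P] in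
theorem int_bd [IsFiniteMeasure P] {f g : Ω → ℝ} {A B : ℝ} (hf : Measurable f)
    (hg : Measurable g) (hA : ∀ ω, |f ω| ≤ A) (hB : ∀ ω, |g ω| ≤ B) :
    Integrable (fun ω => f ω * g ω) P := by
  refine Integrable.of_bound (hf.mul hg).aestronglyMeasurable (A * B)
    (Filter.Eventually.of_forall fun ω => ?_)
  rw [Real.norm_eq_abs, abs_mul]
  exact mul_le_mul (hA ω) (hB ω) (abs_nonneg _) ((abs_nonneg _).trans (hA ω))

theorem cs_quad (s : Finset ℕ) (a : Ω → ℝ) (b : ℕ → Ω → ℝ) (ha : Measurable a)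
    (hb : ∀ p, Measurable (b p)) (ha1 : ∀ ω, |a ω| ≤ 1) (hb2 : ∀ p ω, |b p ω| ≤ 2) :
    (∑ p ∈ s, (∫ ω, a ω * b p ω ∂P) ^ 2) ^ 2 ≤
      ∑ p ∈ s, ∑ p' ∈ s, (∫ ω, a ω * b p ω ∂P) * (∫ ω, a ω * b p' ω ∂P) *
        ∫ ω, b p ω * b p' ω ∂P := by
  set c : ℕ → ℝ := fun p => ∫ ω, a ω * b p ω ∂P with hc
  set A : ℝ := ∑ p ∈ s, c p ^ 2 with hA
  have hab : ∀ p, Integrable (fun ω => a ω * b p ω) P := fun p =>
    int_bd P ha (hb p) ha1 (hb2 p)
  have hbb : ∀ p p', Integrable (fun ω => b p ω * b p' ω) P := fun p p' =>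
    int_bd P (hb p) (hb p') (hb2 p) (hb2 p')
  have haa : Integrable (fun ω => a ω * a ω) P := int_bd P ha ha ha1 ha1
  have h0 : 0 ≤ ∫ ω, (∑ p ∈ s, c p * b p ω - A * a ω) ^ 2 ∂P :=
    integral_nonneg fun ω => sq_nonneg _
  have hexp : ∀ ω, (∑ p ∈ s, c p * b p ω - A * a ω) ^ 2 =
      (∑ p ∈ s, ∑ p' ∈ s, c p * c p' * (b p ω * b p' ω)) -
        2 * A * (∑ p ∈ s, c p * (a ω * b p ω)) + A ^ 2 * (a ω * a ω) := by
    intro ω
    have h1 : (∑ p ∈ s, c p * b p ω) ^ 2 =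
        ∑ p ∈ s, ∑ p' ∈ s, c p * c p' * (b p ω * b p' ω) := by
      rw [sq, sum_mul_sum]
      exact sum_congr rfl fun p _ => sum_congr rfl fun p' _ => by ring
    have h2 : ∑ p ∈ s, c p * (a ω * b p ω) = a ω * ∑ p ∈ s, c p * b p ω := by
      rw [mul_sum]
      exact sum_congr rfl fun p _ => by ring
    rw [← h1, h2]
    ring
  have hi1 : Integrable (fun ω => ∑ p ∈ s, ∑ p' ∈ s, c p * c p' * (b p ω * b p' ω)) P :=
    integrable_finsetSum _ fun p _ => integrable_finsetSum _ fun p' _ => (hbb p p').const_mul _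
  have hi2 : Integrable (fun ω => 2 * A * ∑ p ∈ s, c p * (a ω * b p ω)) P :=
    (integrable_finsetSum _ fun p _ => (hab p).const_mul _).const_mul _
  have hi3 : Integrable (fun ω => A ^ 2 * (a ω * a ω)) P := haa.const_mul _
  have hint : ∫ ω, (∑ p ∈ s, c p * b p ω - A * a ω) ^ 2 ∂P =
      (∑ p ∈ s, ∑ p' ∈ s, c p * c p' * ∫ ω, b p ω * b p' ω ∂P) - 2 * A * A +
        A ^ 2 * ∫ ω, a ω * a ω ∂P := by
    rw [integral_congr_ae (Filter.Eventually.of_forall hexp)]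
    have hs : ∫ ω, ((∑ p ∈ s, ∑ p' ∈ s, c p * c p' * (b p ω * b p' ω)) -
        2 * A * (∑ p ∈ s, c p * (a ω * b p ω)) + A ^ 2 * (a ω * a ω)) ∂P =
        ∫ ω, (∑ p ∈ s, ∑ p' ∈ s, c p * c p' * (b p ω * b p' ω)) ∂P -
        ∫ ω, 2 * A * (∑ p ∈ s, c p * (a ω * b p ω)) ∂P + ∫ ω, A ^ 2 * (a ω * a ω) ∂P := by
      have e1 : ∫ ω, ((∑ p ∈ s, ∑ p' ∈ s, c p * c p' * (b p ω * b p' ω)) -
          2 * A * (∑ p ∈ s, c p * (a ω * b p ω))) ∂P = _ := integral_sub hi1 hi2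
      have e2 : ∫ ω, ((∑ p ∈ s, ∑ p' ∈ s, c p * c p' * (b p ω * b p' ω)) -
          2 * A * (∑ p ∈ s, c p * (a ω * b p ω)) + A ^ 2 * (a ω * a ω)) ∂P = _ :=
        integral_add (hi1.sub hi2) hi3
      rw [e2]
      congr 1
    rw [hs, integral_const_mul, integral_const_mul,
      integral_finsetSum _ fun p _ => (hab p).const_mul _,
      integral_finsetSum _ fun p _ => integrable_finsetSum _ fun p' _ => (hbb p p').const_mul _]
    congr 2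
    · refine sum_congr rfl fun p _ => ?_
      rw [integral_finsetSum _ fun p' _ => (hbb p p').const_mul _]
      exact sum_congr rfl fun p' _ => integral_const_mul _ _
    · congr 1
      rw [hA]
      refine sum_congr rfl fun p _ => ?_
      rw [integral_const_mul, sq]
  have haa1 : ∫ ω, a ω * a ω ∂P ≤ 1 := by
    have h1 : ∫ ω, a ω * a ω ∂P ≤ ∫ ω, (1 : ℝ) ∂P := by
      refine integral_mono haa (integrable_const _) fun ω => ?_
      have := ha1 ω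
      calc a ω * a ω = |a ω| * |a ω| := (abs_mul_abs_self _).symm
        _ ≤ 1 * 1 := mul_le_mul this this (abs_nonneg _) zero_le_one
        _ = 1 := one_mul _
    simpa using h1
  rw [hint] at h0
  nlinarith [mul_le_mul_of_nonneg_left haa1 (sq_nonneg A)]

theorem cs_core (s : Finset ℕ) (a : Ω → ℝ) (b : ℕ → Ω → ℝ) (ha : Measurable a)
    (hb : ∀ p, Measurable (b p)) (ha1 : ∀ ω, |a ω| ≤ 1) (hb2 : ∀ p ω, |b p ω| ≤ 2) :
    (∑ p ∈ s, (∫ ω, a ω * b p ω ∂P) ^ 2) ^ 2 ≤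
      ∑ p ∈ s, ∑ p' ∈ s, (∫ ω, b p ω * b p' ω ∂P) ^ 2 := by
  have h1 := cs_quad P s a b ha hb ha1 hb2
  set c : ℕ → ℝ := fun p => ∫ ω, a ω * b p ω ∂P with hc
  set R : ℕ → ℕ → ℝ := fun p p' => ∫ ω, b p ω * b p' ω ∂P with hR
  set A : ℝ := ∑ p ∈ s, c p ^ 2 with hA
  set D : ℝ := ∑ p ∈ s, ∑ p' ∈ s, c p * c p' * R p p' with hD
  set S : ℝ := ∑ p ∈ s, ∑ p' ∈ s, R p p' ^ 2 with hS
  have h1' : A ^ 2 ≤ D := h1
  have h2 : D ^ 2 ≤ A ^ 2 * S := by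
    have h3 := sum_mul_sq_le_sq_mul_sq (s ×ˢ s) (fun x : ℕ × ℕ => c x.1 * c x.2)
      (fun x : ℕ × ℕ => R x.1 x.2)
    rw [sum_product, sum_product, sum_product] at h3
    have h4 : ∑ x ∈ s, ∑ y ∈ s, (c x * c y) ^ 2 = A ^ 2 := by
      rw [hA, sq, sum_mul_sum]
      exact sum_congr rfl fun p _ => sum_congr rfl fun p' _ => by ring
    rw [h4] at h3
    exact h3
  have hS0 : 0 ≤ S := sum_nonneg fun p _ => sum_nonneg fun p' _ => sq_nonneg _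
  change A ^ 2 ≤ S
  rcases eq_or_lt_of_le (sq_nonneg A) with h0 | h0
  · rw [← h0]
    exact hS0
  · have h5 : A ^ 2 * A ^ 2 ≤ A ^ 2 * S := by
      calc A ^ 2 * A ^ 2 ≤ D * D := mul_le_mul h1' h1' h0.le (h0.le.trans h1')
        _ = D ^ 2 := (sq D).symm
        _ ≤ _ := h2
    exact le_of_mul_le_mul_left h5 h0

end core

theorem pf_CSP : T_CSP := by
  intro Ω _ P _ T a b h m _ ha hb ha1 hb2
  have h1 := cs_core P (Pset 2 m) a (fun p ω => b (T^[p * h] ω)) ha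
    (fun p => hb.comp (T.measurable.iterate _)) ha1 fun p ω => hb2 _
  set c : ℕ → ℝ := fun p => ∫ ω, a ω * b (T^[p * h] ω) ∂P with hc
  set S : ℝ := ∑ p ∈ Pset 2 m, ∑ p' ∈ Pset 2 m,
    (∫ ω, b (T^[p * h] ω) * b (T^[p' * h] ω) ∂P) ^ 2 with hS
  have h1' : (∑ p ∈ Pset 2 m, c p ^ 2) ^ 2 ≤ S := h1
  have h2 : (∑ p ∈ Pset 2 m, |c p|) ^ 2 ≤ ((Pset 2 m).card : ℝ) * ∑ p ∈ Pset 2 m, c p ^ 2 := by
    have := sq_sum_le_card_mul_sum_sq (s := Pset 2 m) (f := fun p => |c p|)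
    simpa only [sq_abs] using this
  change (avgP 2 m fun p => |c p|) ^ 4 ≤ S / _
  unfold avgP
  rcases Nat.eq_zero_or_pos (Pset 2 m).card with h0 | h0
  · rw [h0]
    simp
  · have hn : (0 : ℝ) < ((Pset 2 m).card : ℝ) := by exact_mod_cast h0
    set n : ℝ := ((Pset 2 m).card : ℝ) with hnd
    rw [div_pow, div_le_div_iff₀ (by positivity) (by positivity)]
    have h3 : (∑ p ∈ Pset 2 m, |c p|) ^ 4 ≤ n ^ 2 * S := by
      calc (∑ p ∈ Pset 2 m, |c p|) ^ 4 = ((∑ p ∈ Pset 2 m, |c p|) ^ 2) ^ 2 := by ring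
        _ ≤ (n * ∑ p ∈ Pset 2 m, c p ^ 2) ^ 2 := pow_le_pow_left₀ (sq_nonneg _) h2 2
        _ = n ^ 2 * (∑ p ∈ Pset 2 m, c p ^ 2) ^ 2 := by ring
        _ ≤ _ := mul_le_mul_of_nonneg_left h1' (sq_nonneg _)
    calc (∑ p ∈ Pset 2 m, |c p|) ^ 4 * n ^ 2 ≤ (n ^ 2 * S) * n ^ 2 :=
          mul_le_mul_of_nonneg_right h3 (sq_nonneg _)
      _ = S * n ^ 4 := by ring

end Pool.Agent.H52.X
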