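import Pool.Agent.H83.X.T3
import Pool.Agent.H40.LF.SDN

/-!
Theorem X, row XEQ: the `n`-side in terms of the components of the `y`-side.
-/

set_option autoImplicit false

open MeasureTheory ProbabilityTheory Filter Topology Finset
open scoped Nat ENNReal

namespace Pool.Agent.H52.X

open Pool.Agent.H24.T2 (Pset)
open Pool.Agent.H67.AG (avgP)
open Pool.Agent.H28.LF (Xi Yi shX shY flY xiY SysX SysY CompY ExY)
open Pool.Agent.H40.LF (meas_flY meas_xiY)
open Pool.Agent.H83.X

/-- a measure as the composition with the kernel of its components -/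
theorem comp_eq (P : Measure Yi) (κ : Kernel Yi Yi)
    (hB : ∀ B, MeasurableSet B → P B = ∫⁻ ω, κ ω B ∂P) :
    (κ ∘ₖ Kernel.const Unit P) () = P := by
  ext B hm
  rw [Kernel.comp_apply' _ _ _ hm, Kernel.const_apply, ← hB B hm]

/-- integrals over the components -/
theorem int_comp (P : Measure Yi) (κ : Kernel Yi Yi)
    (hB : ∀ B, MeasurableSet B → P B = ∫⁻ ω, κ ω B ∂P) {g : Yi → ℝ} (hg : Integrable g P) :
    ∫ ω, (∫ x, g x ∂κ ω) ∂P = ∫ x, g x ∂P := by
  have hg' : Integrable g ((κ ∘ₖ Kernel.const Unit P) ()) := by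
    rw [comp_eq P κ hB]
    exact hg
  have h := Kernel.integral_comp hg'
  rw [comp_eq P κ hB, Kernel.const_apply] at h
  exact h.symm

/-- the law of the point of the `n`-side on the multiples of `p` -/
theorem law_fl (PX : Measure Xi) (P : Measure Yi) [IsProbabilityMeasure PX] (hS : SysY PX P)
    (p : ℕ) (hp : p.Prime) :
    (P.restrict (flY p)).map (xiY p) = ENNReal.ofReal (1 / (p : ℝ)) • PX := by
  have := hS.prob
  have hp0 : (0 : ℝ) < p := by exact_mod_cast hp.pos
  ext C hC
  rw [Measure.map_apply (meas_xiY p) hC, Measure.restrict_apply (meas_xiY p hC),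
    Measure.smul_apply, smul_eq_mul, Set.inter_comm]
  have h1 := hS.div p hp C hC
  rw [← ofReal_measureReal (μ := P) (s := flY p ∩ xiY p ⁻¹' C), h1,
    ← ofReal_measureReal (μ := PX) (s := C), ← ENNReal.ofReal_mul (by positivity)]
  congr 1
  ring

/-- integrals over the multiples of `p` -/
theorem int_fl (PX : Measure Xi) (P : Measure Yi) [IsProbabilityMeasure PX] (hS : SysY PX P)
    (p : ℕ) (hp : p.Prime) (F : Set Xi) (hF : MeasurableSet F) (f : Xi → ℝ) (hf : Measurable f) :
    (p : ℝ) * ∫ ω in flY p ∩ xiY p ⁻¹' F, f (xiY p ω) ∂P = ∫ ξ in F, f ξ ∂PX := by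
  have hp0 : (0 : ℝ) < p := by exact_mod_cast hp.pos
  have h1 : ∫ ω in flY p ∩ xiY p ⁻¹' F, f (xiY p ω) ∂P =
      ∫ ξ in F, f ξ ∂((P.restrict (flY p)).map (xiY p)) := by
    rw [setIntegral_map hF hf.aestronglyMeasurable (meas_xiY p).aemeasurable,
      Measure.restrict_restrict (meas_xiY p hF), Set.inter_comm]
  rw [h1, law_fl PX P hS p hp, Measure.restrict_smul, integral_smul_measure,
    ENNReal.toReal_ofReal (by positivity), smul_eq_mul, ← mul_assoc, mul_one_div_cancel hp0.ne',
    one_mul]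

/-- the integral over a component as a function of the component -/
theorem meas_kint (κ : Kernel Yi Yi) {A : Set Yi} (hA : MeasurableSet A) {g : Yi → ℝ}
    (hg : Measurable g) : Measurable fun ω => ∫ ω' in A, g ω' ∂(κ ω) := by
  have h1 : (fun ω => ∫ ω' in A, g ω' ∂(κ ω)) = fun ω => ∫ ω', A.indicator g ω' ∂(κ ω) := by
    funext ω
    rw [integral_indicator hA]
  rw [h1]
  exact (StronglyMeasurable.integral_kernel (hg.indicator hA).stronglyMeasurable).measurable

theorem kint_bd (κ : Kernel Yi Yi) [IsMarkovKernel κ] (A : Set Yi) {g : Yi → ℝ} {C : ℝ}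
    (hC : ∀ ω, |g ω| ≤ C) (ω : Yi) : |∫ ω' in A, g ω' ∂(κ ω)| ≤ C := by
  have hC0 : 0 ≤ C := (abs_nonneg _).trans (hC ω)
  have h1 := norm_setIntegral_le_of_norm_le_const (μ := κ ω) (s := A) (f := g) (C := C)
    (measure_lt_top _ _) fun x _ => by
      rw [Real.norm_eq_abs]
      exact hC x
  rw [Real.norm_eq_abs] at h1
  refine h1.trans ?_
  calc C * (κ ω).real A ≤ C * 1 := mul_le_mul_of_nonneg_left measureReal_le_one hC0
    _ = C := mul_one C

theorem pf_XEQ : T_XEQ := by
  intro PX P κ _ L m F f hPX hS hB hF hf hC hne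
  obtain ⟨C, hC⟩ := hC
  have := hS.prob
  have hcard : (0 : ℝ) < ((Pset 2 m).card : ℝ) := by
    exact_mod_cast card_pos.2 hne
  have hA : ∀ p l, MeasurableSet (flY p ∩ xiY p ⁻¹' (F l)) := fun p l =>
    (meas_flY p).inter (meas_xiY p (hF l))
  have hgm : ∀ p l, Measurable fun ω => f l (xiY p ω) := fun p l => (hf l).comp (meas_xiY p)
  have hkm : ∀ p l, Measurable fun ω =>
      ∫ ω' in flY p ∩ xiY p ⁻¹' (F l), f l (xiY p ω') ∂(κ ω) := fun p l =>
    meas_kint κ (hA p l) (hgm p l)
  have hki : ∀ p l, Integrable (fun ω =>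
      ∫ ω' in flY p ∩ xiY p ⁻¹' (F l), f l (xiY p ω') ∂(κ ω)) P := fun p l =>
    Integrable.of_bound (hkm p l).aestronglyMeasurable C (Filter.Eventually.of_forall fun ω => by
      rw [Real.norm_eq_abs]
      exact kint_bd κ _ (fun ω' => hC l _) ω)
  have hms : ∀ p : ℕ, Measurable fun ω => ∑ l, (p : ℝ) *
      ∫ ω' in flY p ∩ xiY p ⁻¹' (F l), f l (xiY p ω') ∂(κ ω) := fun p =>
    Finset.measurable_sum _ fun l _ => (hkm p l).const_mul _
  have his : ∀ p : ℕ, Integrable (fun ω => ∑ l, (p : ℝ) *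
      ∫ ω' in flY p ∩ xiY p ⁻¹' (F l), f l (xiY p ω') ∂(κ ω)) P := fun p =>
    integrable_finsetSum _ fun l _ => (hki p l).const_mul _
  refine ⟨?_, ?_⟩
  · unfold avgP
    exact (Finset.measurable_sum _ fun p _ => hms p).div_const _
  · unfold avgP
    rw [integral_div, integral_finsetSum _ fun p _ => his p]
    have hval : ∀ p ∈ Pset 2 m, ∫ ω, (∑ l, (p : ℝ) *
        ∫ ω' in flY p ∩ xiY p ⁻¹' (F l), f l (xiY p ω') ∂(κ ω)) ∂P =
        ∑ l, ∫ ξ in F l, f l ξ ∂PX := by
      intro p hp
      have hpp : p.Prime := (mem_filter.1 hp).2.1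
      rw [integral_finsetSum _ fun l _ => (hki p l).const_mul _]
      refine sum_congr rfl fun l _ => ?_
      rw [integral_const_mul]
      have h1 : ∀ ω, ∫ ω' in flY p ∩ xiY p ⁻¹' (F l), f l (xiY p ω') ∂(κ ω) =
          ∫ ω', (flY p ∩ xiY p ⁻¹' (F l)).indicator (fun ω' => f l (xiY p ω')) ω' ∂(κ ω) := by
        intro ω
        rw [integral_indicator (hA p l)]
      have hint : Integrable ((flY p ∩ xiY p ⁻¹' (F l)).indicator
          (fun ω' => f l (xiY p ω'))) P :=
        (Integrable.of_bound (hgm p l).aestronglyMeasurable C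
          (Filter.Eventually.of_forall fun ω => by
            rw [Real.norm_eq_abs]
            exact hC l _)).indicator (hA p l)
      rw [integral_congr_ae (Filter.Eventually.of_forall h1), int_comp P κ hB hint,
        integral_indicator (hA p l)]
      exact int_fl PX P hS p hpp (F l) (hF l) (f l) (hf l)
    rw [sum_congr rfl hval]
    simp only [sum_const, nsmul_eq_mul]
    field_simp

end Pool.Agent.H52.X
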