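import Pool.Agent.H83.X.T3
import Pool.Agent.H40.LF.SDN
import Pool.Agent.H89.V.NPV

/-!
Theorem X, row XJM: the main term is measurable and bounded.
-/

set_option autoImplicit false

open MeasureTheory ProbabilityTheory Filter Topology Finset
open scoped Nat ENNReal

namespace Pool.Agent.H52.X

open Pool.Agent.H24.T2 (Pset)
open Pool.Agent.H67.AG (avgP)
open Pool.Agent.H28.LF (Xi Yi shX shY btY flY xiY)
open Pool.Agent.H40.LF (meas_flY meas_xiY meas_btY meas_shY)
open Pool.Agent.H83.V (vl)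
open Pool.Agent.H83.X

theorem vR_nonneg (R : ℕ) (b : ℕ → Bool) : 0 ≤ vR R b := by
  unfold vR
  exact div_nonneg (sum_nonneg fun s _ => by split_ifs <;> norm_num) (Nat.cast_nonneg _)

theorem vR_le (R : ℕ) (b : ℕ → Bool) : vR R b ≤ 1 := by
  unfold vR
  rcases Nat.eq_zero_or_pos R with h0 | h0
  · subst h0
    simp
  · have hR : (0 : ℝ) < R := by exact_mod_cast h0
    rw [div_le_one hR]
    calc ∑ s ∈ range R, (if b s then (1 : ℝ) else 0) ≤ ∑ s ∈ range R, (1 : ℝ) :=
          sum_le_sum fun s _ => by split_ifs <;> norm_num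
      _ = R := by simp

theorem meas_vR (R : ℕ) : Measurable (vR R) := by
  unfold vR
  refine (Finset.measurable_sum _ fun s _ => ?_).div_const _
  refine Measurable.ite ?_ measurable_const measurable_const
  have h1 : Measurable fun b : ℕ → Bool => b s := measurable_pi_apply s
  exact h1 (measurableSet_singleton true)

theorem meas_lab (R p : ℕ) : Measurable fun ω : Yi => vR R (xiY p ω 0).2 :=
  (meas_vR R).comp (measurable_snd.comp ((measurable_pi_apply (0 : ℤ)).comp (meas_xiY p)))

theorem meas_vl (z : Bool) (n : ℕ) : Measurable fun ω : Yi => (vl z (btY (shY^[n] ω)) : ℝ) :=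
  (measurable_of_countable fun b : Bool × Bool => (vl z b : ℝ)).comp
    (meas_btY.comp (meas_shY n))

theorem meas_gC (z : Bool) (κ : Kernel Yi Yi) (n : ℕ) : Measurable fun ω => gC z (κ ω) n := by
  unfold gC
  exact (StronglyMeasurable.integral_kernel
    ((meas_vl z 0).mul (meas_vl z n)).stronglyMeasurable).measurable

theorem gC_abs (z : Bool) (ν : Measure Yi) [IsProbabilityMeasure ν] (n : ℕ) :
    |gC z ν n| ≤ 1 := by
  unfold gC
  have h1 := norm_integral_le_of_norm_le_const (μ := ν)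
    (f := fun ω => (vl z (btY ω) : ℝ) * (vl z (btY (shY^[n] ω)) : ℝ)) (C := 1)
    (Filter.Eventually.of_forall fun ω => by
      rw [Real.norm_eq_abs, abs_mul]
      exact mul_le_one₀ (Pool.Agent.H89.V.vl_abs _ _) (abs_nonneg _)
        (Pool.Agent.H89.V.vl_abs _ _))
  simpa using h1

theorem pf_XJM : T_XJM := by
  intro z h R m Φ c B κ _ _ hΦ hB
  have hcont : Continuous Φ := by
    have := hΦ.continuousOn isOpen_univ
    exact continuousOn_univ.1 this
  have hlm : ∀ p, Measurable fun ω => ∫ ω', vR R (xiY p ω' 0).2 ∂(κ ω) := fun p =>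
    (StronglyMeasurable.integral_kernel (meas_lab R p).stronglyMeasurable).measurable
  have hl0 : ∀ p ω, 0 ≤ ∫ ω', vR R (xiY p ω' 0).2 ∂(κ ω) := fun p ω =>
    integral_nonneg fun ω' => vR_nonneg _ _
  have hl1 : ∀ p ω, ∫ ω', vR R (xiY p ω' 0).2 ∂(κ ω) ≤ 1 := by
    intro p ω
    have hi : Integrable (fun ω' : Yi => vR R (xiY p ω' 0).2) (κ ω) :=
      Integrable.of_bound (meas_lab R p).aestronglyMeasurable 1
        (Filter.Eventually.of_forall fun ω' => by
          rw [Real.norm_eq_abs, abs_of_nonneg (vR_nonneg _ _)]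
          exact vR_le _ _)
    have h1 : ∫ ω', vR R (xiY p ω' 0).2 ∂(κ ω) ≤ ∫ _, (1 : ℝ) ∂(κ ω) :=
      integral_mono hi (integrable_const _) fun ω' => vR_le _ _
    simpa using h1
  have hB0 : 0 ≤ B := by
    have := hB 0 (by simp)
    have h1 := abs_nonneg (Φ 0)
    have h2 := abs_nonneg c
    linarith
  have hterm : ∀ p ω, |(∫ ω', vR R (xiY p ω' 0).2 ∂(κ ω)) * (Φ (gC z (κ ω) (p * h)) - c)| ≤ B := by
    intro p ω
    rw [abs_mul, abs_of_nonneg (hl0 p ω)]
    have h1 : |Φ (gC z (κ ω) (p * h)) - c| ≤ B :=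
      (abs_sub _ _).trans (hB _ (gC_abs z (κ ω) _))
    calc _ ≤ 1 * B := mul_le_mul (hl1 p ω) h1 (abs_nonneg _) zero_le_one
      _ = B := one_mul B
  refine ⟨?_, fun ω => ?_⟩
  · unfold jX avgP
    refine (Finset.measurable_sum _ fun p _ => ?_).div_const _
    exact (hlm p).mul ((hcont.measurable.comp (meas_gC z κ _)).sub_const _)
  · unfold jX avgP
    rcases Nat.eq_zero_or_pos (Pset 2 m).card with h0 | h0
    · rw [h0]
      simpa using hB0
    · have hn : (0 : ℝ) < ((Pset 2 m).card : ℝ) := by exact_mod_cast h0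
      rw [abs_div, abs_of_pos hn, div_le_iff₀ hn]
      refine (abs_sum_le_sum_abs _ _).trans ?_
      calc _ ≤ ∑ p ∈ Pset 2 m, B := sum_le_sum fun p _ => hterm p ω
        _ = B * ((Pset 2 m).card : ℝ) := by
          rw [sum_const, nsmul_eq_mul, mul_comm]

end Pool.Agent.H52.X
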